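import Pool.Agent.Helper30.CIR.Goals

/-! # Project CIR, packet XF: the generator of the flow -/

set_option autoImplicit false

open Set Filter Topology

open scoped ContDiff

namespace Pool.Agent.Helper93.CIR

open Pool.Agent.Helper56.RZ Pool.Agent.Helper30.CIR

/-- local form of `C^1` for the flow: the time derivative near `(t, x)` -/
theorem loc {K : ℕ} {s : WithTop ℕ∞} {M : Set (E K)} {A : ℝ → E K → E K} (hs : 1 ≤ s)
    (hA : Flow s M A) (t : ℝ) {x : E K} (hx : x ∈ M) :
    ∃ (o : Set (ℝ × E K)) (f' : ℝ × E K → E K), IsOpen o ∧ (t, x) ∈ o ∧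
      (∀ y ∈ o, y.2 ∈ M → HasDerivAt (fun r => A r y.2) (f' y) y.1) ∧
      ContinuousWithinAt f' (univ ×ˢ M) (t, x) := by
  have hS : (t, x) ∈ (univ ×ˢ M : Set (ℝ × E K)) := ⟨mem_univ _, hx⟩
  have h0 : ContDiffWithinAt ℝ (0 + 1) (fun p : ℝ × E K => A p.1 p.2) (univ ×ˢ M) (t, x) := by
    rw [zero_add]
    exact (hA.smooth.of_le hs) (t, x) hS
  rw [contDiffWithinAt_succ_iff_hasFDerivWithinAt (by simp)] at h0
  obtain ⟨u, hu, -, f', hf', hc⟩ := h0
  rw [insert_eq_of_mem hS] at hu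
  obtain ⟨o, ho, hxo, hou⟩ := mem_nhdsWithin.1 hu
  refine ⟨o, fun y => f' y (1, 0), ho, hxo, ?_, ?_⟩
  · intro y hy hyM
    have hyu : y ∈ u := hou ⟨hy, mem_univ _, hyM⟩
    have h1 : HasFDerivWithinAt (fun p : ℝ × E K => A p.1 p.2) (f' y) u y := hf' y hyu
    have h2 : HasDerivAt (fun r : ℝ => (r, y.2)) ((1 : ℝ), (0 : E K)) y.1 :=
      (hasDerivAt_id y.1).prodMk (hasDerivAt_const y.1 y.2)
    have h3 : Tendsto (fun r : ℝ => (r, y.2)) (𝓝 y.1) (𝓝 y) := h2.continuousAt
    have h4 : ∀ᶠ r in 𝓝 y.1, (r, y.2) ∈ u := by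
      filter_upwards [h3 (ho.mem_nhds hy)] with r hr
      exact hou ⟨hr, mem_univ _, hyM⟩
    exact h1.comp_hasDerivAt y.1 h2 h4
  · have h3 : ContinuousWithinAt f' u (t, x) := hc.continuousWithinAt
    have h4 : ContinuousWithinAt f' (univ ×ˢ M) (t, x) := h3.mono_of_mem_nhdsWithin hu
    exact h4.clm_apply continuousWithinAt_const

theorem d0 {K : ℕ} {s : WithTop ℕ∞} {M : Set (E K)} {A : ℝ → E K → E K} (hs : 1 ≤ s)
    (hA : Flow s M A) {x : E K} (hx : x ∈ M) :
    HasDerivAt (fun t => A t x) (gen A x) 0 := by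
  obtain ⟨o, f', -, hxo, hd, -⟩ := loc hs hA 0 hx
  exact (hd (0, x) hxo hx).differentiableAt.hasDerivAt

theorem cgen {K : ℕ} {s : WithTop ℕ∞} {M : Set (E K)} {A : ℝ → E K → E K} (hs : 1 ≤ s)
    (hA : Flow s M A) : ContinuousOn (gen A) M := by
  intro x hx
  obtain ⟨o, f', ho, hxo, hd, hc⟩ := loc hs hA 0 hx
  have h1 : Continuous (fun y : E K => ((0 : ℝ), y)) := by fun_prop
  have h2 : ContinuousWithinAt (fun y : E K => f' ((0 : ℝ), y)) M x :=
    ContinuousWithinAt.comp (f := fun y : E K => ((0 : ℝ), y)) hc h1.continuousWithinAt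
      (fun y hy => ⟨mem_univ _, hy⟩)
  refine h2.congr_of_eventuallyEq ?_ ((hd (0, x) hxo hx).deriv)
  filter_upwards [mem_nhdsWithin_of_mem_nhds (h1.continuousAt (ho.mem_nhds hxo)),
    self_mem_nhdsWithin] with y hy hyM
  exact (hd (0, y) hy hyM).deriv

theorem dt {K : ℕ} {s : WithTop ℕ∞} {M : Set (E K)} {A : ℝ → E K → E K} (hs : 1 ≤ s)
    (hA : Flow s M A) {x : E K} (hx : x ∈ M) (t : ℝ) :
    HasDerivAt (fun t => A t x) (gen A (A t x)) t := by
  have h1 : HasDerivAt (fun u => A u (A t x)) (gen A (A t x)) 0 := d0 hs hA (hA.maps t hx)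
  have h2 : (fun u => A u (A t x)) = fun u => A (u + t) x := by
    funext u
    exact (hA.add u t x hx).symm
  rw [h2] at h1
  have h4 : HasDerivAt (fun u => A (u + t) x) (gen A (A t x)) (t - t) := by
    rwa [sub_self]
  have h5 := h4.comp_sub_const t t
  simp only [sub_add_cancel] at h5
  exact h5

theorem gen_mem {K : ℕ} {s : WithTop ℕ∞} {M : Set (E K)} {A : ℝ → E K → E K} (hs : 1 ≤ s)
    (hA : Flow s M A) {x : E K} (hx : x ∈ M) : gen A x ∈ tan M x := by
  have h1 := (d0 hs hA hx).hasFDerivAt.hasFDerivWithinAt (s := univ)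
  have h2 := h1.mapsTo_tangent_cone
  have h3 : (1 : ℝ) ∈ tangentConeAt ℝ (univ : Set ℝ) 0 := by
    rw [tangentConeAt_of_mem_nhds univ_mem]
    exact mem_univ _
  have h4 := h2 h3
  have h5 : (fun t => A t x) '' univ ⊆ M := by
    rintro _ ⟨t, -, rfl⟩
    exact hA.maps t hx
  have h6 := tangentConeAt_mono h5 h4
  have h6 : (ContinuousLinearMap.toSpanSingleton ℝ (gen A x)) (1 : ℝ) ∈
      tangentConeAt ℝ M (A 0 x) := h6
  rw [hA.zero x hx] at h6
  have h8 : (ContinuousLinearMap.toSpanSingleton ℝ (gen A x)) (1 : ℝ) = gen A x := by simp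
  unfold tan
  refine Submodule.subset_span ?_
  rw [← h8]
  exact h6

theorem gXF : Pool.Agent.Helper30.CIR.StmtXF := by
  intro K s M A hs hA
  refine ⟨cgen hs hA, fun x hx => ⟨dt hs hA hx, ?_, ?_, ?_⟩⟩
  · exact Submodule.starProjection_eq_self_iff.2 (gen_mem hs hA hx)
  · intro h y u u' _ hh hy hev hu
    have h1 : HasFDerivWithinAt h (fderivWithin ℝ h M x) M x :=
      ((hh x hx).differentiableWithinAt (by simp)).hasFDerivWithinAt
    have h2 : HasDerivAt (fun t => A t x) (gen A x) 0 := d0 hs hA hx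
    have h5 : HasDerivAt (fun t => h (A t x)) (fderivWithin ℝ h M x (gen A x)) 0 :=
      h1.comp_hasDerivAt_of_eq 0 h2 (Eventually.of_forall fun t => hA.maps t hx)
        (hA.zero x hx).symm
    have h6 : HasDerivAt (fun t => A (u t) y) (u' • gen A (A (u 0) y)) 0 :=
      (dt hs hA hy (u 0)).scomp 0 hu
    have h7 : HasDerivAt (fun t => h (A t x)) (u' • gen A (A (u 0) y)) 0 :=
      h6.congr_of_eventuallyEq hev
    have h8 : h x = A (u 0) y := by
      have h9 := hev.self_of_nhds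
      rwa [hA.zero x hx] at h9
    rw [h8, ← h5.unique h7]
    have h10 : Pi M x (gen A x) = gen A x :=
      Submodule.starProjection_eq_self_iff.2 (gen_mem hs hA hx)
    show fderivWithin ℝ h M x (Pi M x (gen A x)) = _
    rw [h10]
  · intro F om hF hom hg
    have h1 : HasFDerivWithinAt F (fderivWithin ℝ F M x) M x :=
      ((hF.1 x hx).differentiableWithinAt (by
        intro h0
        rw [h0] at hs
        exact absurd hs (by simp))).hasFDerivWithinAt
    have h2 : HasDerivAt (fun t => A t x) (gen A x) 0 := d0 hs hA hx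
    have h5 : HasDerivAt (fun t => F (A t x)) (fderivWithin ℝ F M x (gen A x)) 0 :=
      h1.comp_hasDerivAt_of_eq 0 h2 (Eventually.of_forall fun t => hA.maps t hx)
        (hA.zero x hx).symm
    rw [hg, map_zero] at h5
    have h6 : (fun t => F (A t x)) =
        fun t : ℝ => Complex.exp ((2 * Real.pi * om * t : ℝ) * Complex.I) * F x := by
      funext t
      exact hF.2 t x hx
    rw [h6] at h5
    have h7 : HasDerivAt (fun t : ℝ => (2 * Real.pi * om * t : ℝ)) (2 * Real.pi * om) 0 := by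
      simpa using (hasDerivAt_id (0 : ℝ)).const_mul (2 * Real.pi * om)
    have h8 : HasDerivAt (fun t : ℝ => Complex.exp ((2 * Real.pi * om * t : ℝ) * Complex.I) * F x)
        (Complex.exp (((2 * Real.pi * om * 0 : ℝ) : ℂ) * Complex.I) *
          (((2 * Real.pi * om : ℝ) : ℂ) * Complex.I) * F x) 0 :=
      ((h7.ofReal_comp.mul_const Complex.I).cexp).mul_const (F x)
    have h9 := h5.unique h8
    simp only [mul_zero, Complex.ofReal_zero, zero_mul, Complex.exp_zero, one_mul] at h9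
    have h10 : ((2 * Real.pi * om : ℝ) : ℂ) * Complex.I ≠ 0 := by
      refine mul_ne_zero ?_ Complex.I_ne_zero
      rw [Complex.ofReal_ne_zero]
      have := Real.pi_pos
      positivity
    exact (mul_eq_zero.1 h9.symm).resolve_left h10

end Pool.Agent.Helper93.CIR
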